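import Pool.Agent.H22.TR.Step

/-!
Transitive stepping-up: splitting levels of natural numbers and the recursive colouring.
-/

set_option autoImplicit false

namespace Pool.Agent.H22.TR

/-- The properties of the colouring `χ` of the increasing lists of length `k` that are preserved by
the stepping-up. -/
structure Tri (k : ℕ) (χ : List ℕ → Bool) : Prop where
  T : ∀ s, Inc s → s.length = k + 1 → χ s.tail = χ s.dropLast → ∀ i ≤ k, χ (s.eraseIdx i) = χ s.tail
  M : ∀ x y r, Inc (x :: y :: r) → r.length = k - 1 → χ (x :: r) = true → χ (y :: r) = true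
  N : ∀ r x y, Inc (r ++ [x, y]) → r.length = k - 1 → χ (r ++ [y]) = decide (k % 2 = 0) →
    χ (r ++ [x]) = decide (k % 2 = 0)

theorem reverse_eraseIdx (d : List ℕ) (i : ℕ) (hi : i < d.length) :
    (d.eraseIdx i).reverse = d.reverse.eraseIdx (d.length - 1 - i) := by
  rw [List.eraseIdx_eq_take_drop_succ, List.eraseIdx_eq_take_drop_succ, List.reverse_append,
    List.take_reverse, List.drop_reverse]
  have h1 : d.length - (d.length - 1 - i) = i + 1 := by omega
  have h2 : d.length - (d.length - 1 - i + 1) = i := by omega
  rw [h1, h2]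

theorem inc_reverse {d : List ℕ} : Inc d.reverse ↔ Dec d := by
  unfold Inc Dec
  rw [List.pairwise_reverse]

/-- The colours of the increasing lists one level up. -/
def upI (χ : List ℕ → Bool) (d : List ℕ) : Bool := !χ d

/-- The colours of the decreasing lists one level up. -/
def upD (k : ℕ) (χ : List ℕ → Bool) (d : List ℕ) : Bool := xor (χ d.reverse) (decide (k % 2 = 1))

theorem idProps_of_tri {k : ℕ} {χ : List ℕ → Bool} (h : Tri k χ) :
    IDProps k (upI χ) (upD k χ) where
  IT := by
    intro d hd hl he i hi
    unfold upI at he ⊢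
    rw [h.T d hd hl (by simpa using he) i hi]
  IM := by
    intro x y r hI hl he
    unfold upI at he ⊢
    have := h.M y x r hI hl (by simpa using he)
    simpa using this
  IN := by
    intro r x y hI hl he
    unfold upI at he ⊢
    have hpar : decide (k % 2 = 1) = !decide (k % 2 = 0) := by
      rcases Nat.mod_two_eq_zero_or_one k with h1 | h1 <;> simp [h1]
    rw [hpar] at he ⊢
    rw [h.N r x y hI hl (by simpa using he)]
  DT := by
    intro d hd hl he i hi
    unfold upD at he ⊢
    have he' : χ d.tail.reverse = χ d.dropLast.reverse := by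
      have h1 := congrArg (fun b => xor b (decide (k % 2 = 1))) he
      simpa using h1
    have e1 : d.tail.reverse = d.reverse.dropLast := by simp
    have e2 : d.dropLast.reverse = d.reverse.tail := by simp
    rw [e1, e2] at he'
    rw [reverse_eraseIdx d i (by omega), e1, he',
      h.T d.reverse (inc_reverse.2 hd) (by simpa using hl) he'.symm _ (by omega)]
  DM := by
    intro r x y hD hl he
    unfold upD at he ⊢
    simp only [List.reverse_append, List.reverse_cons, List.reverse_nil, List.nil_append,
      List.cons_append] at he ⊢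
    have hI : Inc (x :: y :: r.reverse) := by
      have := inc_reverse.2 hD
      simpa using this
    have hx : χ (x :: r.reverse) = true := by
      rcases Nat.mod_two_eq_zero_or_one k with h1 | h1 <;> simpa [h1] using he
    have hy := h.M x y r.reverse hI (by simpa using hl) hx
    rw [hx] at he
    rw [hy, he]
  DN := by
    intro x y r hD hl he
    unfold upD at he ⊢
    simp only [List.reverse_cons] at he ⊢
    have hI : Inc (r.reverse ++ [y, x]) := by
      have := inc_reverse.2 hD
      simpa using this
    have hx : χ (r.reverse ++ [x]) = decide (k % 2 = 0) := by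
      rcases Nat.mod_two_eq_zero_or_one k with h1 | h1 <;> simpa [h1] using he
    have hy := h.N r.reverse y x hI (by simpa using hl) hx
    rw [hx] at he
    rw [hy, he]

/-! ### Splitting levels -/

/-- the highest binary digit in which `a` and `b` differ (for `a ≠ b`) -/
noncomputable def lv (a b : ℕ) : ℕ := sInf {i | a / 2 ^ (i + 1) = b / 2 ^ (i + 1)}

theorem div_two_pow_zero (a b : ℕ) : a / 2 ^ (a + b) = 0 ∧ b / 2 ^ (a + b) = 0 := by
  have h : ∀ c : ℕ, c < 2 ^ c := fun c => Nat.lt_two_pow_self
  constructor
  · exact Nat.div_eq_of_lt ((h a).trans_le (Nat.pow_le_pow_right (by norm_num) (by omega)))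
  · exact Nat.div_eq_of_lt ((h b).trans_le (Nat.pow_le_pow_right (by norm_num) (by omega)))

theorem lv_le_iff {a b i : ℕ} : lv a b ≤ i ↔ a / 2 ^ (i + 1) = b / 2 ^ (i + 1) := by
  constructor
  · intro h
    have hne : {i | a / 2 ^ (i + 1) = b / 2 ^ (i + 1)}.Nonempty := by
      refine ⟨a + b, ?_⟩
      have h1 := div_two_pow_zero a b
      simp only [Set.mem_ofPred_eq]
      rw [pow_succ, ← Nat.div_div_eq_div_mul, ← Nat.div_div_eq_div_mul, h1.1, h1.2]
    have h1 : a / 2 ^ (lv a b + 1) = b / 2 ^ (lv a b + 1) := Nat.sInf_mem hne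
    obtain ⟨t, rfl⟩ := Nat.exists_eq_add_of_le h
    rw [show lv a b + t + 1 = (lv a b + 1) + t by ring, pow_add, ← Nat.div_div_eq_div_mul,
      ← Nat.div_div_eq_div_mul, h1]
  · intro h
    exact Nat.sInf_le h

theorem lv_max {a b c : ℕ} (hab : a < b) (hbc : b < c) : lv a c = max (lv a b) (lv b c) := by
  refine eq_of_forall_ge_iff fun i => ?_
  rw [max_le_iff, lv_le_iff, lv_le_iff, lv_le_iff]
  have h1 : a / 2 ^ (i + 1) ≤ b / 2 ^ (i + 1) := Nat.div_le_div_right hab.le
  have h2 : b / 2 ^ (i + 1) ≤ c / 2 ^ (i + 1) := Nat.div_le_div_right hbc.le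
  omega

theorem lv_ne {a b c : ℕ} (hab : a < b) (hbc : b < c) : lv a b ≠ lv b c := by
  intro h
  have h1 : a / 2 ^ (lv a b + 1) = b / 2 ^ (lv a b + 1) := lv_le_iff.1 le_rfl
  have h2 : b / 2 ^ (lv a b + 1) = c / 2 ^ (lv a b + 1) := lv_le_iff.1 h.ge
  have h3 : a / 2 ^ lv a b ≠ b / 2 ^ lv a b := by
    intro h4
    rcases Nat.eq_zero_or_pos (lv a b) with h0 | h0
    · rw [h0] at h4
      simp at h4
      omega
    · have h5 : lv a b ≤ lv a b - 1 := lv_le_iff.2 (by rwa [Nat.sub_add_cancel h0])
      omega
  have h4 : b / 2 ^ lv a b ≠ c / 2 ^ lv a b := by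
    intro h4
    rcases Nat.eq_zero_or_pos (lv a b) with h0 | h0
    · rw [h0] at h4
      simp at h4
      omega
    · have h5 : lv b c ≤ lv a b - 1 := lv_le_iff.2 (by rwa [Nat.sub_add_cancel h0])
      omega
  have h5 : a / 2 ^ lv a b ≤ b / 2 ^ lv a b := Nat.div_le_div_right hab.le
  have h6 : b / 2 ^ lv a b ≤ c / 2 ^ lv a b := Nat.div_le_div_right hbc.le
  rw [pow_succ, ← Nat.div_div_eq_div_mul, ← Nat.div_div_eq_div_mul] at h1 h2
  omega

theorem lv_lt {a b M : ℕ} (ha : a < 2 ^ M) (hb : b < 2 ^ M) (hab : a < b) : lv a b < M := by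
  have hM : 0 < M := by
    rcases Nat.eq_zero_or_pos M with h | h
    · rw [h] at ha hb
      simp at ha hb
      omega
    · exact h
  have : lv a b ≤ M - 1 := by
    rw [lv_le_iff, Nat.sub_add_cancel hM, Nat.div_eq_of_lt ha, Nat.div_eq_of_lt hb]
  omega

/-- The list of splitting levels of consecutive entries. -/
noncomputable def dl : List ℕ → List ℕ
  | a :: b :: l => lv a b :: dl (b :: l)
  | _ => []

theorem dl_length (a : List ℕ) : (dl a).length = a.length - 1 := by
  induction a with
  | nil => rfl
  | cons x a ih =>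
    match a, ih with
    | [], _ => rfl
    | y :: a, ih =>
      simp only [dl, List.length_cons] at ih ⊢
      rw [ih]
      omega

theorem good_dl {a : List ℕ} (h : Inc a) : Good (dl a) := by
  induction a with
  | nil => trivial
  | cons x a ih =>
    match a, h, ih with
    | [], _, _ => trivial
    | [y], _, _ => trivial
    | [y, z], h, _ =>
      have h1 := inc_cons_cons.1 h
      exact lv_ne h1.1 (inc_cons_cons.1 h1.2).1
    | y :: z :: w :: a, h, ih =>
      have h1 := inc_cons_cons.1 h
      have h2 := inc_cons_cons.1 h1.2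
      have h3 := inc_cons_cons.1 h2.2
      refine ⟨lv_ne h1.1 h2.1, fun h4 h5 h6 => ?_, ih h1.2⟩
      have h7 : lv y w = lv z w := by rw [lv_max h2.1 h3.1, max_eq_right h5.le]
      exact lv_ne h1.1 (h2.1.trans h3.1) (by rw [h7]; exact h6)

theorem dl_tail (a : List ℕ) : dl a.tail = (dl a).tail := by
  match a with
  | [] => rfl
  | [x] => rfl
  | x :: y :: a => rfl

theorem dl_eraseIdx (i : ℕ) (a : List ℕ) (h : Inc a) (hi : i + 1 < a.length) :
    dl (a.eraseIdx (i + 1)) = mrg i (dl a) := by
  induction i generalizing a with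
  | zero =>
    match a, h, hi with
    | [x, y], _, _ => rfl
    | x :: y :: z :: a, h, _ =>
      have h1 := inc_cons_cons.1 h
      have h2 := inc_cons_cons.1 h1.2
      simp only [List.eraseIdx_cons_succ, List.eraseIdx_cons_zero, dl, mrg]
      rw [lv_max h1.1 h2.1]
  | succ i ih =>
    match a, h, hi with
    | x :: y :: a, h, hi =>
      have h1 := inc_cons_cons.1 h
      have h2 := ih (y :: a) h1.2 (by simpa using hi)
      simp only [List.eraseIdx_cons_succ, dl, mrg] at h2 ⊢
      rw [h2]

theorem dl_snoc (l : List ℕ) (t x : ℕ) : dl (l ++ [t, x]) = dl (l ++ [t]) ++ [lv t x] := by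
  induction l with
  | nil => rfl
  | cons y l ih =>
    match l, ih with
    | [], _ => rfl
    | z :: l, ih =>
      simp only [List.cons_append, dl] at ih ⊢
      rw [ih]

theorem dl_dropLast (a : List ℕ) : dl a.dropLast = (dl a).dropLast := by
  rcases List.eq_nil_or_concat a with rfl | ⟨l, x, rfl⟩
  · rfl
  rcases List.eq_nil_or_concat l with rfl | ⟨l, y, rfl⟩
  · rfl
  · have h1 := dl_snoc l y x
    simp only [List.concat_eq_append, List.append_assoc, List.cons_append, List.nil_append]
    rw [h1, List.dropLast_concat]
    have h2 : (l ++ [y, x]).dropLast = l ++ [y] := by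
      rw [show l ++ [y, x] = (l ++ [y]) ++ [x] by simp, List.dropLast_concat]
    rw [h2]

/-- The colouring one level up. -/
noncomputable def up (k : ℕ) (χ : List ℕ → Bool) (a : List ℕ) : Bool :=
  stepF (upI χ) (upD k χ) (dl a)

theorem tri_up {k : ℕ} {χ : List ℕ → Bool} (hk : 3 ≤ k) (h : Tri k χ) :
    Tri (k + 1) (up k χ) where
  T := by
    intro s hs hl he i hi
    unfold up at he ⊢
    rw [dl_tail, dl_dropLast] at he
    rw [dl_tail]
    have hd : (dl s).length = k + 1 := by rw [dl_length]; omega
    match i with
    | 0 =>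
      rw [← dl_tail, List.eraseIdx_zero]
    | i + 1 =>
      rw [dl_eraseIdx i s hs (by omega)]
      exact stepF_trans hk (idProps_of_tri h) _ (good_dl hs) hd he i (by omega)
  M := by
    intro x y r hI hl he
    unfold up at he ⊢
    have hd : (dl (x :: y :: r)).length = k + 1 := by rw [dl_length]; simp; omega
    have h1 : dl (x :: r) = mrg 0 (dl (x :: y :: r)) := by
      rw [← dl_eraseIdx 0 _ hI (by simp)]
      rfl
    have h2 : dl (y :: r) = (dl (x :: y :: r)).tail := by
      rw [← dl_tail]
      rfl
    rw [h1] at he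
    rw [h2]
    exact stepF_M hk (idProps_of_tri h) _ (good_dl hI) hd he
  N := by
    intro r x y hI hl he
    unfold up at he ⊢
    obtain ⟨r0, t, rfl⟩ : ∃ r0 t, r = r0 ++ [t] := by
      rcases List.eq_nil_or_concat r with rfl | ⟨r0, u, rfl⟩
      · simp at hl; omega
      · exact ⟨r0, u, by simp⟩
    have htx : t < x := by
      rw [List.append_assoc] at hI
      exact (inc_cons_cons.1 (List.pairwise_append.1 hI).2.1).1
    have hxy : x < y := by
      rw [List.append_assoc] at hI
      exact (inc_cons_cons.1 (inc_cons_cons.1 (List.pairwise_append.1 hI).2.1).2).1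
    have hg := good_dl hI
    have e1 : dl (r0 ++ [t] ++ [x, y]) = dl (r0 ++ [t]) ++ [lv t x, lv x y] := by
      rw [dl_snoc, List.append_assoc, List.singleton_append, dl_snoc]
      simp
    have e2 : dl (r0 ++ [t] ++ [y]) = dl (r0 ++ [t]) ++ [max (lv t x) (lv x y)] := by
      rw [List.append_assoc, List.singleton_append, dl_snoc, lv_max htx hxy]
    have e3 : dl (r0 ++ [t] ++ [x]) = dl (r0 ++ [t]) ++ [lv t x] := by
      rw [List.append_assoc, List.singleton_append, dl_snoc]
    rw [e1] at hg
    rw [e2] at he
    rw [e3]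
    exact stepF_N hk (idProps_of_tri h) _ _ _ hg (by rw [dl_length]; simp at hl ⊢; omega) he

/-- The colouring for triples: compare the two splitting levels. -/
noncomputable def base : List ℕ → Bool
  | x :: y :: z :: _ => decide (lv x y < lv y z)
  | _ => false

theorem tri_base : Tri 3 base where
  T := by
    intro s hs hl he i hi
    match s, hs, hl, he with
    | [a, b, c, d], hs, _, he =>
      have h1 := inc_cons_cons.1 hs
      have h2 := inc_cons_cons.1 h1.2
      have h3 := inc_cons_cons.1 h2.2
      have n1 := lv_ne h1.1 h2.1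
      have n2 := lv_ne h2.1 h3.1
      have m1 := lv_max h1.1 h2.1
      have m2 := lv_max h2.1 h3.1
      have he' : (lv b c < lv c d) ↔ (lv a b < lv b c) := by
        simpa [base, decide_eq_decide] using he
      match i, hi with
      | 0, _ => simp [base]
      | 1, _ =>
        simp only [List.eraseIdx_cons_succ, List.eraseIdx_cons_zero, base, List.tail_cons,
          decide_eq_decide]
        rw [m1]
        omega
      | 2, _ =>
        simp only [List.eraseIdx_cons_succ, List.eraseIdx_cons_zero, base, List.tail_cons,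
          decide_eq_decide]
        rw [m2]
        omega
      | 3, _ =>
        simp only [List.eraseIdx_cons_succ, List.eraseIdx_cons_zero, base, List.tail_cons,
          decide_eq_decide]
        omega
  M := by
    intro x y r hI hl he
    match r, hl, hI, he with
    | [c, d], _, hI, he =>
      have h1 := inc_cons_cons.1 hI
      have h2 := inc_cons_cons.1 h1.2
      have m1 := lv_max h1.1 h2.1
      simp only [base, decide_eq_true_eq] at he ⊢
      rw [m1] at he
      omega
  N := by
    intro r x y hI hl he
    match r, hl, hI, he with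
    | [a, b], _, hI, he =>
      have h1 := inc_cons_cons.1 hI
      have h2 := inc_cons_cons.1 h1.2
      have h3 := inc_cons_cons.1 h2.2
      have m2 := lv_max h2.1 h3.1
      simp only [List.cons_append, List.nil_append, base] at he ⊢
      rw [m2] at he
      have h4 : ¬ (lv a b < max (lv b x) (lv x y)) := by
        intro h5
        rw [decide_eq_true h5] at he
        simp at he
      have h5 : ¬ (lv a b < lv b x) := by omega
      simp [h5]

/-- The colouring of the increasing lists of length `j + 3`. -/
noncomputable def col : ℕ → List ℕ → Bool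
  | 0 => base
  | j + 1 => up (j + 3) (col j)

theorem tri_col (j : ℕ) : Tri (j + 3) (col j) := by
  induction j with
  | zero => exact tri_base
  | succ j ih => exact tri_up (by omega) ih

end Pool.Agent.H22.TR
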