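import Pool.Agent.H22.TR.Col

/-!
Transitive stepping-up: the lengths of monochromatic monotone paths.
-/

set_option autoImplicit false

namespace Pool.Agent.H22.TR

/-- The list `x j, x (j+1), ..., x (j+k-1)`. -/
def W (k : ℕ) (x : ℕ → ℕ) (j : ℕ) : List ℕ := (List.range k).map (fun t => x (j + t))

theorem W_length (k : ℕ) (x : ℕ → ℕ) (j : ℕ) : (W k x j).length = k := by simp [W]

theorem W_succ (k : ℕ) (x : ℕ → ℕ) (j : ℕ) : W (k + 1) x j = x j :: W k x (j + 1) := by
  unfold W
  rw [List.range_succ_eq_map, List.map_cons, List.map_map]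
  simp only [Nat.add_zero, List.cons.injEq, true_and]
  refine List.map_congr_left fun t _ => ?_
  simp only [Function.comp, Nat.succ_eq_add_one]
  congr 1
  omega

theorem dl_W (k : ℕ) (x : ℕ → ℕ) (j : ℕ) :
    dl (W (k + 1) x j) = W k (fun i => lv (x i) (x (i + 1))) j := by
  induction k generalizing j with
  | zero => simp [W, dl]
  | succ k ih =>
    have h1 := ih (j + 1)
    rw [W_succ (k + 1) x j, W_succ k x (j + 1)]
    rw [W_succ k x (j + 1)] at h1
    rw [dl, h1, W_succ k _ j]

theorem inc_W {k : ℕ} {x : ℕ → ℕ} {j : ℕ} (h : ∀ i, i + 1 < k → x (j + i) < x (j + i + 1)) :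
    Inc (W k x j) := by
  induction k generalizing j with
  | zero => simp [W, Inc]
  | succ k ih =>
    rcases k with _ | k
    · simp [W, Inc]
    · rw [W_succ, W_succ, inc_cons_cons]
      refine ⟨by simpa using h 0 (by omega), ?_⟩
      rw [← W_succ]
      refine ih fun i hi => ?_
      have := h (i + 1) (by omega)
      rw [show j + 1 + i = j + (i + 1) by ring]
      exact this

theorem dec_W {k : ℕ} {x : ℕ → ℕ} {j : ℕ} (h : ∀ i, i + 1 < k → x (j + i + 1) < x (j + i)) :
    Dec (W k x j) := by
  induction k generalizing j with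
  | zero => simp [W, Dec]
  | succ k ih =>
    rcases k with _ | k
    · simp [W, Dec]
    · rw [W_succ, W_succ, dec_cons_cons]
      refine ⟨by simpa using h 0 (by omega), ?_⟩
      rw [← W_succ]
      refine ih fun i hi => ?_
      have := h (i + 1) (by omega)
      rw [show j + 1 + i = j + (i + 1) by ring]
      exact this

theorem W_reverse (k : ℕ) (x : ℕ → ℕ) (j s : ℕ) (h : j + k ≤ s + 1) :
    (W k x (s + 1 - j - k)).reverse = W k (fun i => x (s - i)) j := by
  apply List.ext_getElem
  · simp [W]
  · intro n h1 h2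
    simp only [List.length_reverse, W_length] at h1
    simp only [W, List.getElem_reverse, List.getElem_map, List.getElem_range, List.length_map,
      List.length_range]
    congr 1
    omega

/-- there is no monochromatic monotone path of length `n` among the first `N` numbers -/
def PathFree (k : ℕ) (χ : List ℕ → Bool) (N n : ℕ) : Prop :=
  ∀ x : ℕ → ℕ, (∀ i, i + 1 < n + k - 1 → x i < x (i + 1)) → (∀ i, i < n + k - 1 → x i < N) →
    ∀ b : Bool, ¬ ∀ j, j < n → χ (W k x j) = b

theorem PathFree.mono {k : ℕ} {χ : List ℕ → Bool} {N n n' : ℕ} (h : PathFree k χ N n)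
    (hn : n ≤ n') : PathFree k χ N n' := by
  intro x hx hN b hb
  exact h x (fun i hi => hx i (by omega)) (fun i hi => hN i (by omega)) b
    (fun j hj => hb j (by omega))

theorem PathFree.mono_left {k : ℕ} {χ : List ℕ → Bool} {N N' n : ℕ} (h : PathFree k χ N n)
    (hN : N' ≤ N) : PathFree k χ N' n := by
  intro x hx hN' b hb
  exact h x hx (fun i hi => (hN' i hi).trans_le hN) b hb

/-- If a turn of one kind never occurs, the sequence has at most one turn. -/
theorem exists_turn (P : ℕ → Prop) (n : ℕ) (h : ∀ j, j < n → ¬ P j → ¬ P (j + 1)) :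
    ∃ p, p ≤ n + 1 ∧ (∀ i, i < p → P i) ∧ ∀ i, p ≤ i → i ≤ n → ¬ P i := by
  classical
  by_cases hall : ∀ i, i ≤ n → P i
  · exact ⟨n + 1, le_rfl, fun i hi => hall i (by omega), fun i h1 h2 => by omega⟩
  · have hex : ∃ i, i ≤ n ∧ ¬ P i := by
      by_contra h1
      exact hall fun i hi => by_contra fun h2 => h1 ⟨i, hi, h2⟩
    refine ⟨Nat.find hex, (Nat.find_spec hex).1.trans (Nat.le_succ n), fun i hi => ?_, ?_⟩
    · by_contra h1
      exact Nat.find_min hex hi ⟨(hi.le.trans (Nat.find_spec hex).1), h1⟩
    · intro i h1 h2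
      induction i, h1 using Nat.le_induction with
      | base => exact (Nat.find_spec hex).2
      | succ i h1 ih => exact h i (by omega) (ih (by omega))

theorem pathFree_up {k : ℕ} {χ : List ℕ → Bool} {M n : ℕ} (hk : 3 ≤ k) (hn : 1 ≤ n)
    (h : PathFree k χ M n) : PathFree (k + 1) (up k χ) (2 ^ M) (2 * n + 2 * k - 6) := by
  intro x hx hN b hb
  set L := 2 * n + 2 * k - 6 with hL
  set D : ℕ → ℕ := fun i => lv (x i) (x (i + 1)) with hD
  have hDM : ∀ i, i < L + k - 1 → D i < M := fun i hi =>
    lv_lt (hN i (by omega)) (hN (i + 1) (by omega)) (hx i (by omega))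
  have hDne : ∀ i, i + 1 < L + k - 1 → D i ≠ D (i + 1) := fun i hi =>
    lv_ne (hx i (by omega)) (hx (i + 1) (by omega))
  have hF : ∀ j, j < L → stepF (upI χ) (upD k χ) (W k D j) = b := by
    intro j hj
    have := hb j hj
    unfold up at this
    rwa [dl_W] at this
  obtain ⟨k', rfl⟩ : ∃ k', k = k' + 3 := ⟨k - 3, by omega⟩
  have hW : ∀ j, W (k' + 3) D j = D j :: D (j + 1) :: D (j + 2) :: W k' D (j + 3) := by
    intro j
    rw [W_succ, W_succ, W_succ]
  -- long increasing and decreasing segments are impossible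
  have seg_inc : ∀ s, s + n ≤ L → ¬ ∀ i, s ≤ i → i < s + n + (k' + 3) - 2 → D i < D (i + 1) := by
    intro s hs hi
    refine h (fun i => D (s + i)) (fun i hi' => hi (s + i) (by omega) (by omega))
      (fun i hi' => hDM _ (by omega)) (!b) fun j hj => ?_
    have h1 := hF (s + j) (by omega)
    have h2 : Inc (W (k' + 3) D (s + j)) := inc_W fun i hi' => hi _ (by omega) (by omega)
    have h3 : W (k' + 3) (fun i => D (s + i)) j = W (k' + 3) D (s + j) := by
      unfold W
      refine List.map_congr_left fun t _ => ?_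
      rw [Nat.add_assoc]
    rw [stepF_inc h2] at h1
    unfold upI at h1
    rw [h3, ← h1]
    simp
  have seg_dec : ∀ s, s + n ≤ L → ¬ ∀ i, s ≤ i → i < s + n + (k' + 3) - 2 → D (i + 1) < D i := by
    intro s hs hi
    have hrev : ∀ j, j < n → W (k' + 3) (fun i => D (s + n + (k' + 3) - 2 - i)) j =
        (W (k' + 3) D (s + n + (k' + 3) - 2 + 1 - j - (k' + 3))).reverse := by
      intro j hj
      rw [W_reverse _ _ _ _ (by omega)]
    refine h (fun i => D (s + n + (k' + 3) - 2 - i)) (fun i hi' => ?_)
      (fun i hi' => hDM _ (by omega)) (xor b (decide ((k' + 3) % 2 = 1))) fun j hj => ?_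
    · have := hi (s + n + (k' + 3) - 2 - (i + 1)) (by omega) (by omega)
      rw [show s + n + (k' + 3) - 2 - (i + 1) + 1 = s + n + (k' + 3) - 2 - i by omega] at this
      exact this
    · have h1 := hF (s + n + (k' + 3) - 2 + 1 - j - (k' + 3)) (by omega)
      have h2 : Dec (W (k' + 3) D (s + n + (k' + 3) - 2 + 1 - j - (k' + 3))) :=
        dec_W fun i hi' => hi _ (by omega) (by omega)
      rw [stepF_dec' h2 (by rw [W_length]; omega)] at h1
      unfold upD at h1
      rw [hrev j hj, ← h1]
      cases χ (W (k' + 3) D (s + n + (k' + 3) - 2 + 1 - j - (k' + 3))).reverse <;> simp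
  cases b with
  | true =>
    obtain ⟨p, hp1, hp2, hp3⟩ := exists_turn (fun i => D i < D (i + 1)) L (by
      intro j hj h1 h2
      have h3 : D (j + 1) < D j := lt_of_le_of_ne (not_lt.1 h1) (hDne j (by omega)).symm
      have h4 := hF j hj
      rw [hW, stepF_min h3 h2] at h4
      exact absurd h4 (by simp))
    rcases Nat.lt_or_ge p (n + (k' + 3) - 2) with hlt | hge
    · refine seg_dec p (by omega) fun i h1 h2 => ?_
      exact lt_of_le_of_ne (not_lt.1 (hp3 i h1 (by omega))) (hDne i (by omega)).symm
    · exact seg_inc 0 (by omega) fun i _ h2 => hp2 i (by omega)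
  | false =>
    obtain ⟨p, hp1, hp2, hp3⟩ := exists_turn (fun i => D (i + 1) < D i) L (by
      intro j hj h1 h2
      have h3 : D j < D (j + 1) := lt_of_le_of_ne (not_lt.1 h1) (hDne j (by omega))
      have h4 := hF j hj
      rw [hW, stepF_max h3 h2] at h4
      exact absurd h4 (by simp))
    rcases Nat.lt_or_ge p (n + (k' + 3) - 2) with hlt | hge
    · refine seg_inc p (by omega) fun i h1 h2 => ?_
      exact lt_of_le_of_ne (not_lt.1 (hp3 i h1 (by omega))) (hDne i (by omega))
    · exact seg_dec 0 (by omega) fun i _ h2 => hp2 i (by omega)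

theorem pathFree_base (m : ℕ) (hm : 1 ≤ m) : PathFree 3 base (2 ^ m) m := by
  intro x hx hN b hb
  set D : ℕ → ℕ := fun i => lv (x i) (x (i + 1)) with hD
  have hDM : ∀ i, i < m + 1 → D i < m := fun i hi =>
    lv_lt (hN i (by omega)) (hN (i + 1) (by omega)) (hx i (by omega))
  have hDne : ∀ i, i < m → D i ≠ D (i + 1) := fun i hi =>
    lv_ne (hx i (by omega)) (hx (i + 1) (by omega))
  have hF : ∀ j, j < m → decide (D j < D (j + 1)) = b := by
    intro j hj
    have := hb j hj
    rw [W_succ, W_succ, W_succ, base] at this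
    exact this
  cases b with
  | true =>
    have h1 : ∀ i, i ≤ m → i ≤ D i := by
      intro i
      induction i with
      | zero => intro _; omega
      | succ i ih =>
        intro hi
        have h2 := ih (by omega)
        have h3 : D i < D (i + 1) := by simpa using hF i (by omega)
        omega
    have h2 := h1 m le_rfl
    have h3 := hDM m (by omega)
    omega
  | false =>
    have h1 : ∀ i, i ≤ m → i ≤ D (m - i) := by
      intro i
      induction i with
      | zero => intro _; omega
      | succ i ih =>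
        intro hi
        have h2 := ih (by omega)
        have h3 : ¬ D (m - (i + 1)) < D (m - (i + 1) + 1) := by
          simpa using hF (m - (i + 1)) (by omega)
        have h4 := hDne (m - (i + 1)) (by omega)
        rw [show m - (i + 1) + 1 = m - i by omega] at h3 h4
        omega
    have h2 := h1 m le_rfl
    have h3 := hDM (m - m) (by omega)
    omega

/-- Towers of twos over natural numbers. -/
def tw : ℕ → ℕ → ℕ
  | 0, m => m
  | i + 1, m => 2 ^ tw i m

theorem pathFree_col (j : ℕ) : ∃ c, ∀ m, 1 ≤ m →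
    PathFree (j + 3) (col j) (tw (j + 1) m) (2 ^ j * m + c) := by
  induction j with
  | zero =>
    refine ⟨0, fun m hm => ?_⟩
    simpa [tw, col] using pathFree_base m hm
  | succ j ih =>
    obtain ⟨c, hc⟩ := ih
    refine ⟨2 * c + 2 * (j + 3), fun m hm => ?_⟩
    have hpos : 1 ≤ 2 ^ j * m := Nat.one_le_iff_ne_zero.2 (by positivity)
    have h1 := pathFree_up (k := j + 3) (by omega) (by omega) (hc m hm)
    refine PathFree.mono (show PathFree (j + 1 + 3) (col (j + 1)) (tw (j + 1 + 1) m) _ from h1) ?_
    rw [pow_succ]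
    have : 2 ^ j * 2 * m = 2 * (2 ^ j * m) := by ring
    omega

end Pool.Agent.H22.TR
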