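import Pool.Agent.H22.TR.Path

/-!
Ramsey's theorem for monotone paths, in the form that the Ramsey numbers are finite.
-/

set_option autoImplicit false

namespace Pool.Agent.H22.TR

/-- A colouring of the increasing lists of length `K + 1` with a finite palette in which
consecutive lists have different colours exists only on boundedly many vertices. -/
theorem proper_bound (K : ℕ) : ∀ (C : Type) [Finite C], ∃ B : ℕ, ∀ (N : ℕ) (f : List ℕ → C),
    (∀ L : List ℕ, Inc L → L.length = K + 2 → (∀ a ∈ L, a < N) → f L.tail ≠ f L.dropLast) →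
    N ≤ B := by
  induction K with
  | zero =>
    intro C _
    refine ⟨Nat.card C, fun N f hf => ?_⟩
    have hinj : Function.Injective (fun a : Fin N => f [a.1]) := by
      intro a b hab
      by_contra hne
      rcases lt_or_gt_of_ne hne with h | h
      · exact hf [a.1, b.1] (inc_cons_cons.2 ⟨h, List.pairwise_singleton _ _⟩) rfl
          (by simp) hab.symm
      · exact hf [b.1, a.1] (inc_cons_cons.2 ⟨h, List.pairwise_singleton _ _⟩) rfl
          (by simp) hab
    have := Nat.card_le_card_of_injective _ hinj
    simpa using this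
  | succ K ih =>
    intro C _
    obtain ⟨B, hB⟩ := ih (Set C)
    refine ⟨B, fun N f hf => hB N (fun L => {z | ∃ a, a < L.headD 0 ∧ f (a :: L) = z}) ?_⟩
    intro L hL hlen hlt heq
    match L, hL, hlen, hlt, heq with
    | x :: y :: L, hL, hlen, hlt, heq =>
      have hmem : f (x :: y :: L) ∈ {z | ∃ a, a < (y :: L).headD 0 ∧ f (a :: y :: L) = z} :=
        ⟨x, (inc_cons_cons.1 hL).1, rfl⟩
      have h1 : f (x :: y :: L) ∈
          {z | ∃ a, a < (x :: y :: L).dropLast.headD 0 ∧ f (a :: (x :: y :: L).dropLast) = z} := by
        have : {z | ∃ a, a < (y :: L).headD 0 ∧ f (a :: y :: L) = z} = _ := heq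
        rw [← this]
        exact hmem
      obtain ⟨a, ha, hfa⟩ := h1
      have hd : (x :: y :: L).dropLast = x :: (y :: L).dropLast := by simp [List.dropLast]
      rw [hd] at ha hfa
      have hax : a < x := by simpa using ha
      refine hf (a :: x :: y :: L) (inc_cons_cons.2 ⟨hax, hL⟩) (by simp at hlen ⊢; omega) ?_ ?_
      · intro b hb
        rcases List.mem_cons.1 hb with rfl | hb
        · exact hax.trans (hlt x (by simp))
        · exact hlt b hb
      · have hd2 : (a :: x :: y :: L).dropLast = a :: x :: (y :: L).dropLast := by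
          simp [List.dropLast]
        rw [hd2, hfa, List.tail_cons]

/-- Every colouring of the increasing lists of length `k` with finitely many colours on many
vertices has `n` consecutive windows of the same colour. -/
theorem exists_mono (k n : ℕ) (hk : 1 ≤ k) (hn : 1 ≤ n) (C : Type) [Finite C] : ∃ N : ℕ,
    ∀ c : List ℕ → C, ∃ L : List ℕ, Inc L ∧ L.length = n + k - 1 ∧ (∀ a ∈ L, a < N) ∧
      ∃ i : C, ∀ j, j < n → c ((L.drop j).take k) = i := by
  obtain ⟨B, hB⟩ := proper_bound (n + k - 2) (Fin n → C)
  refine ⟨B + 1, fun c => ?_⟩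
  by_contra hno
  have h1 := hB (B + 1) (fun L j => c ((L.drop j.1).take k)) ?_
  · omega
  intro L hL hlen hlt heq
  apply hno
  refine ⟨L.dropLast, List.Pairwise.sublist (List.dropLast_sublist _) hL, by simp; omega,
    fun a ha => hlt a (List.mem_of_mem_dropLast ha), c ((L.dropLast.drop 0).take k), ?_⟩
  intro j
  induction j with
  | zero => intro _; rfl
  | succ j ih =>
    intro hj
    rw [← ih (by omega)]
    have h2 := congrFun heq ⟨j, by omega⟩
    simp only [List.drop_tail] at h2
    rw [← h2]
    congr 1
    rw [List.dropLast_eq_take, List.drop_take, List.take_take]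
    congr 1
    omega

end Pool.Agent.H22.TR
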