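import Mathlib

/-!
Transitive stepping-up: the combinatorics of lists of splitting levels.
-/

set_option autoImplicit false

namespace Pool.Agent.H22.TR

/-- Increasing lists. -/
abbrev Inc (l : List ℕ) : Prop := l.Pairwise (· < ·)

/-- Decreasing lists. -/
abbrev Dec (l : List ℕ) : Prop := l.Pairwise (· > ·)

/-- The sign of the first turn of a list, with the parity of its position: a local maximum at
position `j` (positions start at `1`) counts as `true` if `j` is even, and a local minimum at
position `j` as `false` if `j` is even; the opposite if `j` is odd. -/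
def tsign : List ℕ → Bool
  | x :: y :: z :: l =>
      if x < y ∧ z < y then true else if y < x ∧ y < z then false else !tsign (y :: z :: l)
  | _ => false

/-- Merge the entries at places `i` and `i + 1` to their maximum (the last entry is dropped if `i`
is its place). -/
def mrg : ℕ → List ℕ → List ℕ
  | 0, x :: y :: l => max x y :: l
  | 0, [_] => []
  | i + 1, x :: l => x :: mrg i l
  | _, [] => []

/-- The constraints satisfied by the lists of splitting levels. -/
def Good : List ℕ → Prop
  | x :: y :: z :: l => x ≠ y ∧ (y < x → y < z → x ≠ z) ∧ Good (y :: z :: l)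
  | [x, y] => x ≠ y
  | _ => True

theorem inc_cons_cons {x y : ℕ} {l : List ℕ} : Inc (x :: y :: l) ↔ x < y ∧ Inc (y :: l) := by
  unfold Inc
  rw [List.pairwise_cons]
  constructor
  · rintro ⟨h1, h2⟩
    exact ⟨h1 y (by simp), h2⟩
  · rintro ⟨h1, h2⟩
    refine ⟨fun a ha => ?_, h2⟩
    rcases List.mem_cons.1 ha with rfl | ha
    · exact h1
    · exact h1.trans ((List.pairwise_cons.1 h2).1 a ha)

theorem dec_cons_cons {x y : ℕ} {l : List ℕ} : Dec (x :: y :: l) ↔ y < x ∧ Dec (y :: l) := by
  unfold Dec
  rw [List.pairwise_cons]
  constructor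
  · rintro ⟨h1, h2⟩
    exact ⟨h1 y (by simp), h2⟩
  · rintro ⟨h1, h2⟩
    refine ⟨fun a ha => ?_, h2⟩
    rcases List.mem_cons.1 ha with rfl | ha
    · exact h1
    · exact lt_trans ((List.pairwise_cons.1 h2).1 a ha) h1

theorem inc_snoc {l : List ℕ} {u w : ℕ} : Inc (l ++ [u, w]) ↔ Inc (l ++ [u]) ∧ u < w := by
  unfold Inc
  simp only [List.pairwise_append, List.pairwise_cons, List.mem_cons, List.not_mem_nil, or_false,
    forall_eq_or_imp, forall_eq, forall_const, List.Pairwise.nil, and_true, true_and,
    IsEmpty.forall_iff]
  constructor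
  · rintro ⟨h1, h2, h3⟩
    exact ⟨⟨h1, fun a ha => (h3 a ha).1⟩, h2⟩
  · rintro ⟨⟨h1, h2⟩, h3⟩
    exact ⟨h1, h3, fun a ha => ⟨h2 a ha, (h2 a ha).trans h3⟩⟩

theorem dec_snoc {l : List ℕ} {u w : ℕ} : Dec (l ++ [u, w]) ↔ Dec (l ++ [u]) ∧ w < u := by
  unfold Dec
  simp only [List.pairwise_append, List.pairwise_cons, List.mem_cons, List.not_mem_nil, or_false,
    forall_eq_or_imp, forall_eq, forall_const, List.Pairwise.nil, and_true, true_and,
    IsEmpty.forall_iff]
  constructor
  · rintro ⟨h1, h2, h3⟩
    exact ⟨⟨h1, fun a ha => (h3 a ha).1⟩, h2⟩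
  · rintro ⟨⟨h1, h2⟩, h3⟩
    exact ⟨h1, h3, fun a ha => ⟨h2 a ha, lt_trans h3 (h2 a ha)⟩⟩

theorem Good.tail {x : ℕ} {l : List ℕ} (h : Good (x :: l)) : Good l := by
  match l, h with
  | [], _ => trivial
  | [y], _ => trivial
  | y :: z :: l, h => exact h.2.2

theorem Good.ne {x y : ℕ} {l : List ℕ} (h : Good (x :: y :: l)) : x ≠ y := by
  match l, h with
  | [], h => exact h
  | z :: l, h => exact h.1

theorem Good.of_append {l r : List ℕ} (h : Good (l ++ r)) : Good l := by
  induction l with
  | nil => trivial
  | cons x l ih =>
    match l, h, ih with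
    | [], _, _ => trivial
    | [y], h, ih =>
      exact Good.ne (l := r) (by simpa using h)
    | y :: z :: l, h, ih =>
      have h' : Good (x :: y :: z :: (l ++ r)) := by simpa using h
      exact ⟨h'.1, h'.2.1, ih (by simpa using h'.2.2)⟩

theorem Good.append_right {l r : List ℕ} (h : Good (l ++ r)) : Good r := by
  induction l with
  | nil => simpa using h
  | cons x l ih => exact ih (Good.tail (by simpa using h))

/-- the last pair of an increasing list followed by a smaller entry -/
theorem tsign_inc (l : List ℕ) (u w : ℕ) (hl : l ≠ []) (h : Inc (l ++ [u])) (hw : w < u) :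
    tsign (l ++ [u, w]) = decide ((l.length + 1) % 2 = 0) := by
  induction l with
  | nil => exact absurd rfl hl
  | cons x l ih =>
    match l, h, ih with
    | [], h, _ =>
      have hxu : x < u := (inc_cons_cons.1 h).1
      simp [tsign, hxu, hw]
    | [y], h, ih =>
      have h1 : x < y ∧ Inc (y :: [u]) := inc_cons_cons.1 h
      have h2 : y < u := (inc_cons_cons.1 h1.2).1
      have h3 := ih (by simp) h1.2
      simp only [List.cons_append, List.nil_append] at h3 ⊢
      rw [tsign, if_neg (by omega), if_neg (by omega), h3]
      simp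
    | y :: z :: l, h, ih =>
      have h1 : x < y ∧ Inc (y :: z :: (l ++ [u])) := inc_cons_cons.1 (by simpa using h)
      have h2 : y < z := (inc_cons_cons.1 h1.2).1
      have h3 := ih (by simp) (by simpa using h1.2)
      simp only [List.cons_append] at h3 ⊢
      rw [tsign, if_neg (by omega), if_neg (by omega), h3]
      simp only [List.length_cons]
      rcases Nat.mod_two_eq_zero_or_one l.length with h4 | h4
      · have e1 : (l.length + 1 + 1 + 1) % 2 = 1 := by omega
        have e2 : (l.length + 1 + 1 + 1 + 1) % 2 = 0 := by omega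
        simp [e1, e2]
      · have e1 : (l.length + 1 + 1 + 1) % 2 = 0 := by omega
        have e2 : (l.length + 1 + 1 + 1 + 1) % 2 = 1 := by omega
        simp [e1, e2]

theorem tsign_dec (l : List ℕ) (u w : ℕ) (hl : l ≠ []) (h : Dec (l ++ [u])) (hw : u < w) :
    tsign (l ++ [u, w]) = decide ((l.length + 1) % 2 = 1) := by
  induction l with
  | nil => exact absurd rfl hl
  | cons x l ih =>
    match l, h, ih with
    | [], h, _ =>
      have hxu : u < x := (dec_cons_cons.1 h).1
      have h1 : ¬ x < u := by omega
      simp [tsign, hxu, hw, h1]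
    | [y], h, ih =>
      have h1 : y < x ∧ Dec (y :: [u]) := dec_cons_cons.1 h
      have h2 : u < y := (dec_cons_cons.1 h1.2).1
      have h3 := ih (by simp) h1.2
      simp only [List.cons_append, List.nil_append] at h3 ⊢
      rw [tsign, if_neg (by omega), if_neg (by omega), h3]
      simp
    | y :: z :: l, h, ih =>
      have h1 : y < x ∧ Dec (y :: z :: (l ++ [u])) := dec_cons_cons.1 (by simpa using h)
      have h2 : z < y := (dec_cons_cons.1 h1.2).1
      have h3 := ih (by simp) (by simpa using h1.2)
      simp only [List.cons_append] at h3 ⊢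
      rw [tsign, if_neg (by omega), if_neg (by omega), h3]
      simp only [List.length_cons]
      rcases Nat.mod_two_eq_zero_or_one l.length with h4 | h4
      · have e1 : (l.length + 1 + 1 + 1) % 2 = 1 := by omega
        have e2 : (l.length + 1 + 1 + 1 + 1) % 2 = 0 := by omega
        simp [e1, e2]
      · have e1 : (l.length + 1 + 1 + 1) % 2 = 0 := by omega
        have e2 : (l.length + 1 + 1 + 1 + 1) % 2 = 1 := by omega
        simp [e1, e2]

/-- the first turn lies in the initial part if this part is not monotone -/
theorem tsign_append (l r : List ℕ) (hg : Good l) (h1 : ¬ Inc l) (h2 : ¬ Dec l) :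
    tsign (l ++ r) = tsign l := by
  induction l with
  | nil => exact absurd List.Pairwise.nil h1
  | cons x l ih =>
    match l, hg, h1, h2, ih with
    | [], _, h1, _, _ => exact absurd (List.pairwise_singleton _ _) h1
    | [y], hg, h1, h2, _ =>
      exfalso
      have hne : x ≠ y := hg
      rcases lt_or_gt_of_ne hne with h | h
      · exact h1 (inc_cons_cons.2 ⟨h, List.pairwise_singleton _ _⟩)
      · exact h2 (dec_cons_cons.2 ⟨h, List.pairwise_singleton _ _⟩)
    | y :: z :: l, hg, h1, h2, ih =>
      have hxy : x ≠ y := hg.1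
      have hyz : y ≠ z := hg.2.2.ne
      simp only [List.cons_append]
      rw [tsign, tsign]
      by_cases c1 : x < y ∧ z < y
      · rw [if_pos c1, if_pos c1]
      rw [if_neg c1, if_neg c1]
      by_cases c2 : y < x ∧ y < z
      · rw [if_pos c2, if_pos c2]
      rw [if_neg c2, if_neg c2]
      congr 1
      have := ih hg.2.2 ?_ ?_
      · simpa using this
      · intro hi
        have hyz' : y < z := (inc_cons_cons.1 hi).1
        exact h1 (inc_cons_cons.2 ⟨by omega, hi⟩)
      · intro hi
        have hyz' : z < y := (dec_cons_cons.1 hi).1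
        exact h2 (dec_cons_cons.2 ⟨by omega, hi⟩)

/-- only the comparison of the first two entries matters for the first entry -/
theorem tsign_congr (x y z : ℕ) (r : List ℕ) (h1 : x < z ↔ y < z) (h2 : z < x ↔ z < y) :
    tsign (x :: z :: r) = tsign (y :: z :: r) := by
  match r with
  | [] => simp [tsign]
  | w :: r =>
    rw [tsign, tsign]
    simp only [h1, h2]

theorem mrg_append (i : ℕ) (l r : List ℕ) (h : i + 1 < l.length) :
    mrg i (l ++ r) = mrg i l ++ r := by
  induction i generalizing l with
  | zero =>
    match l, h with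
    | x :: y :: l, _ => simp [mrg]
  | succ i ih =>
    match l, h with
    | x :: l, h =>
      simp only [List.cons_append, mrg]
      rw [ih l (by simp only [List.length_cons] at h; omega)]

theorem mrg_dropLast (l : List ℕ) (w : ℕ) : mrg l.length (l ++ [w]) = l := by
  induction l with
  | nil => simp [mrg]
  | cons x l ih => simp only [List.length_cons, List.cons_append, mrg, ih]

theorem mrg_last (l : List ℕ) (u w : ℕ) : mrg l.length (l ++ [u, w]) = l ++ [max u w] := by
  induction l with
  | nil => simp [mrg]
  | cons x l ih => simp only [List.length_cons, List.cons_append, mrg, ih]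

theorem mrg_inc (i : ℕ) (d : List ℕ) (h : Inc d) (hi : i < d.length) : mrg i d = d.eraseIdx i := by
  induction i generalizing d with
  | zero =>
    match d, h, hi with
    | [x], _, _ => simp [mrg]
    | x :: y :: d, h, _ =>
      have hxy : x < y := (inc_cons_cons.1 h).1
      simp [mrg, hxy.le]
  | succ i ih =>
    match d, h, hi with
    | x :: d, h, hi =>
      simp only [mrg, List.eraseIdx_cons_succ]
      rw [ih d (List.pairwise_cons.1 h).2 (by simpa using hi)]

theorem mrg_dec (i : ℕ) (d : List ℕ) (h : Dec d) (hi : i + 1 < d.length) :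
    mrg i d = d.eraseIdx (i + 1) := by
  induction i generalizing d with
  | zero =>
    match d, h, hi with
    | x :: y :: d, h, _ =>
      have hxy : y < x := (dec_cons_cons.1 h).1
      simp [mrg, hxy.le]
  | succ i ih =>
    match d, h, hi with
    | x :: d, h, hi =>
      simp only [mrg, List.eraseIdx_cons_succ]
      rw [ih d (List.pairwise_cons.1 h).2 (by simpa using hi)]

/-- The colour of a list of splitting levels obtained from the colours `I` of the increasing lists
and the colours `D` of the decreasing lists. -/
noncomputable def stepF (I D : List ℕ → Bool) (d : List ℕ) : Bool :=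
  open Classical in if Inc d then I d else if Dec d then D d else tsign d

/-- What has to be known about the colours of increasing and decreasing lists. -/
structure IDProps (k : ℕ) (I D : List ℕ → Bool) : Prop where
  IT : ∀ d, Inc d → d.length = k + 1 → I d.tail = I d.dropLast →
    ∀ i ≤ k, I (d.eraseIdx i) = I d.tail
  IM : ∀ x y r, Inc (y :: x :: r) → r.length = k - 1 → I (y :: r) = false → I (x :: r) = false
  IN : ∀ r x y, Inc (r ++ [x, y]) → r.length = k - 1 → I (r ++ [y]) = decide (k % 2 = 1) →
    I (r ++ [x]) = decide (k % 2 = 1)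
  DT : ∀ d, Dec d → d.length = k + 1 → D d.tail = D d.dropLast →
    ∀ i ≤ k, D (d.eraseIdx i) = D d.tail
  DM : ∀ r x y, Dec (r ++ [y, x]) → r.length = k - 1 → D (r ++ [x]) = decide (k % 2 = 0) →
    D (r ++ [y]) = decide (k % 2 = 0)
  DN : ∀ x y r, Dec (x :: y :: r) → r.length = k - 1 → D (x :: r) = true → D (y :: r) = true

section

variable {k : ℕ} {I D : List ℕ → Bool}

theorem stepF_inc {d : List ℕ} (h : Inc d) : stepF I D d = I d := by
  unfold stepF; rw [if_pos h]

theorem not_inc_of_lt {x y : ℕ} {r : List ℕ} (h : y < x) : ¬ Inc (x :: y :: r) := by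
  rw [inc_cons_cons]; omega

theorem not_dec_of_lt {x y : ℕ} {r : List ℕ} (h : x < y) : ¬ Dec (x :: y :: r) := by
  rw [dec_cons_cons]; omega

theorem stepF_dec {x y : ℕ} {r : List ℕ} (h : Dec (x :: y :: r)) :
    stepF I D (x :: y :: r) = D (x :: y :: r) := by
  unfold stepF; rw [if_neg (not_inc_of_lt (dec_cons_cons.1 h).1), if_pos h]

theorem stepF_dec' {d : List ℕ} (h : Dec d) (hl : 2 ≤ d.length) : stepF I D d = D d := by
  match d, h, hl with
  | x :: y :: r, h, _ => exact stepF_dec h

theorem stepF_turn {d : List ℕ} (h1 : ¬ Inc d) (h2 : ¬ Dec d) : stepF I D d = tsign d := by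
  unfold stepF; rw [if_neg h1, if_neg h2]

theorem stepF_max {x y z : ℕ} {r : List ℕ} (h1 : x < y) (h2 : z < y) :
    stepF I D (x :: y :: z :: r) = true := by
  rw [stepF_turn, tsign, if_pos ⟨h1, h2⟩]
  · rw [inc_cons_cons, inc_cons_cons]; omega
  · exact not_dec_of_lt h1

theorem stepF_min {x y z : ℕ} {r : List ℕ} (h1 : y < x) (h2 : y < z) :
    stepF I D (x :: y :: z :: r) = false := by
  rw [stepF_turn, tsign, if_neg (by omega), if_pos ⟨h1, h2⟩]
  · exact not_inc_of_lt h1
  · rw [dec_cons_cons, dec_cons_cons]; omega

theorem stepF_incdec {l : List ℕ} {u w : ℕ} (hl : l ≠ []) (h : Inc (l ++ [u])) (hw : w < u) :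
    stepF I D (l ++ [u, w]) = decide ((l.length + 1) % 2 = 0) := by
  rw [stepF_turn, tsign_inc l u w hl h hw]
  · rw [inc_snoc]; omega
  · match l, hl, h with
    | [x], _, h =>
      exact not_dec_of_lt (inc_cons_cons.1 h).1
    | x :: y :: l, _, h =>
      exact not_dec_of_lt (inc_cons_cons.1 (show Inc (x :: y :: (l ++ [u])) from h)).1

theorem stepF_decinc {l : List ℕ} {u w : ℕ} (hl : l ≠ []) (h : Dec (l ++ [u])) (hw : u < w) :
    stepF I D (l ++ [u, w]) = decide ((l.length + 1) % 2 = 1) := by
  rw [stepF_turn, tsign_dec l u w hl h hw]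
  · match l, hl, h with
    | [x], _, h =>
      exact not_inc_of_lt (dec_cons_cons.1 h).1
    | x :: y :: l, _, h =>
      exact not_inc_of_lt (dec_cons_cons.1 (show Dec (x :: y :: (l ++ [u])) from h)).1
  · rw [dec_snoc]; omega

theorem stepF_tail_incdec (l : List ℕ) (u w : ℕ) (hl : 2 ≤ l.length) (h : Inc (l ++ [u]))
    (hw : w < u) : stepF I D (l ++ [u, w]).tail = decide (l.length % 2 = 0) := by
  match l, hl, h with
  | x :: y :: l, _, h =>
    have h2 : Inc ((y :: l) ++ [u]) := (List.pairwise_cons.1 h).2
    have h3 := stepF_incdec (I := I) (D := D) (l := y :: l) (by simp) h2 hw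
    simpa using h3

theorem stepF_tail_decinc (l : List ℕ) (u w : ℕ) (hl : 2 ≤ l.length) (h : Dec (l ++ [u]))
    (hw : u < w) : stepF I D (l ++ [u, w]).tail = decide (l.length % 2 = 1) := by
  match l, hl, h with
  | x :: y :: l, _, h =>
    have h2 : Dec ((y :: l) ++ [u]) := (List.pairwise_cons.1 h).2
    have h3 := stepF_decinc (I := I) (D := D) (l := y :: l) (by simp) h2 hw
    simpa using h3

theorem Inc.eraseIdx {d : List ℕ} (h : Inc d) (i : ℕ) : Inc (d.eraseIdx i) :=
  List.Pairwise.sublist (List.eraseIdx_sublist d i) h

theorem Dec.eraseIdx {d : List ℕ} (h : Dec d) (i : ℕ) : Dec (d.eraseIdx i) :=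
  List.Pairwise.sublist (List.eraseIdx_sublist d i) h

/-- the case of the transitivity in which the list starts with three monotone entries -/
theorem stepF_trans_aux (hk : 3 ≤ k) (P : IDProps k I D) (l : List ℕ) (w : ℕ)
    (hg : Good (l ++ [w])) (hlen : l.length = k)
    (hno : (∃ x y z r, l = x :: y :: z :: r ∧ x < y ∧ y < z) ∨
      (∃ x y z r, l = x :: y :: z :: r ∧ y < x ∧ z < y))
    (h : stepF I D (l ++ [w]).tail = stepF I D l) :
    ∀ i ≤ k, stepF I D (mrg i (l ++ [w])) = stepF I D l := by
  by_cases hinc : Inc l
  · obtain ⟨l0, u, rfl⟩ : ∃ l0 u, l = l0 ++ [u] := by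
      rcases List.eq_nil_or_concat l with rfl | ⟨l0, u, rfl⟩
      · simp at hlen; omega
      · exact ⟨l0, u, by simp⟩
    have hl0 : l0.length = k - 1 := by simp at hlen; omega
    rw [List.append_assoc] at hg h ⊢
    simp only [List.singleton_append] at hg h ⊢
    have huw : u ≠ w := (Good.append_right hg).ne
    rcases lt_or_gt_of_ne huw with huw | huw
    · have hd : Inc (l0 ++ [u, w]) := inc_snoc.2 ⟨hinc, huw⟩
      have hdl : (l0 ++ [u, w]).length = k + 1 := by simp; omega
      have hdrop : (l0 ++ [u, w]).dropLast = l0 ++ [u] := by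
        rw [show l0 ++ [u, w] = (l0 ++ [u]) ++ [w] by simp, List.dropLast_concat]
      have htail : Inc (l0 ++ [u, w]).tail := List.Pairwise.sublist (List.tail_sublist _) hd
      rw [stepF_inc htail, stepF_inc hinc] at h
      intro i hi
      rw [mrg_inc i _ hd (by omega), stepF_inc (Inc.eraseIdx hd i), stepF_inc hinc, ← h]
      exact P.IT _ hd hdl (by rw [hdrop, h]) i hi
    · have h1 : stepF I D (l0 ++ [u, w]).tail = decide ((k - 1) % 2 = 0) := by
        rw [stepF_tail_incdec l0 u w (by omega) hinc huw, hl0]
      intro i hi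
      rcases lt_trichotomy i (k - 1) with h2 | h2 | h2
      · have h3 : mrg i (l0 ++ [u, w]) = l0.eraseIdx i ++ [u, w] := by
          rw [show l0 ++ [u, w] = (l0 ++ [u]) ++ [w] by simp,
            mrg_append i _ _ (by simp; omega), mrg_inc i _ hinc (by simp; omega),
            List.eraseIdx_append_of_lt_length (by omega)]
          simp
        have hlen' : (l0.eraseIdx i).length = k - 2 := by
          rw [List.length_eraseIdx_of_lt (by omega)]; omega
        have h4 : Inc (l0.eraseIdx i ++ [u]) := by
          have := Inc.eraseIdx hinc i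
          rwa [List.eraseIdx_append_of_lt_length (by omega)] at this
        rw [h3, stepF_incdec (by intro h5; rw [h5] at hlen'; simp at hlen'; omega) h4 huw, hlen',
          ← h, h1]
        congr 2
        omega
      · rw [h2, ← hl0, mrg_last, max_eq_left huw.le]
      · have h3 : i = (l0 ++ [u]).length := by simp; omega
        rw [show l0 ++ [u, w] = (l0 ++ [u]) ++ [w] by simp, h3, mrg_dropLast]
  by_cases hdec : Dec l
  · obtain ⟨l1, v, u, rfl⟩ : ∃ l1 v u, l = l1 ++ [v, u] := by
      rcases List.eq_nil_or_concat l with rfl | ⟨l0, u, rfl⟩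
      · simp at hlen; omega
      · rcases List.eq_nil_or_concat l0 with rfl | ⟨l1, v, rfl⟩
        · simp at hlen; omega
        · exact ⟨l1, v, u, by simp⟩
    have hl1 : l1.length = k - 2 := by simp at hlen; omega
    have hgr : Good [v, u, w] := by
      rw [List.append_assoc] at hg
      exact Good.append_right hg
    have huw : u ≠ w := hgr.tail.ne
    have hvu : u < v := (dec_snoc.1 hdec).2
    have hdec1 : Dec (l1 ++ [v]) := (dec_snoc.1 hdec).1
    have hl1ne : l1 ≠ [] := by intro h5; rw [h5] at hl1; simp at hl1; omega
    rcases lt_or_gt_of_ne huw with huw | huw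
    · have hvw : v ≠ w := hgr.2.1 hvu huw
      have hdec' : Dec ((l1 ++ [v]) ++ [u]) := by simpa using hdec
      -- the colour of the tail
      have h1 : stepF I D (l1 ++ [v, u] ++ [w]).tail = decide ((k - 1) % 2 = 1) := by
        have h2 := stepF_tail_decinc (I := I) (D := D) (l1 ++ [v]) u w (by simp; omega) hdec' huw
        have h3 : (l1 ++ [v]).length = k - 1 := by simp; omega
        rw [h3] at h2
        simpa using h2
      have h1' : stepF I D (l1 ++ [v, u]) = decide ((k - 1) % 2 = 1) := by rw [← h, h1]
      -- the exceptional list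
      have hex : stepF I D (l1 ++ [v, w]) = decide ((k - 1) % 2 = 1) := by
        rcases lt_or_gt_of_ne hvw with hvw | hvw
        · rw [stepF_decinc hl1ne hdec1 hvw, hl1]
          congr 2
          omega
        · have hd : Dec (l1 ++ [v, w]) := dec_snoc.2 ⟨hdec1, hvw⟩
          rw [stepF_dec' hd (by simp)]
          rw [stepF_dec' hdec (by simp)] at h1'
          have hpar : decide ((k - 1) % 2 = 1) = decide (k % 2 = 0) := by
            congr 1
            exact propext (by omega)
          rw [hpar] at h1' ⊢
          have := P.DM (l1 ++ [v]) u w ?_ (by simp; omega) (by simpa using h1')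
          · simpa using this
          · rw [dec_snoc]
            exact ⟨by simpa using hd, huw⟩
      intro i hi
      rw [h1']
      rcases lt_trichotomy i (k - 1) with h2 | h2 | h2
      · rw [mrg_append i _ _ (by simp; omega), mrg_dec i _ hdec (by simp; omega)]
        rcases lt_or_eq_of_le (show i + 1 ≤ k - 1 by omega) with h3 | h3
        · have h4 : (l1 ++ [v, u]).eraseIdx (i + 1) = (l1 ++ [v]).eraseIdx (i + 1) ++ [u] := by
            rw [show l1 ++ [v, u] = (l1 ++ [v]) ++ [u] by simp,
              List.eraseIdx_append_of_lt_length (by simp; omega)]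
          have hlen' : ((l1 ++ [v]).eraseIdx (i + 1)).length = k - 2 := by
            rw [List.length_eraseIdx_of_lt (by simp; omega)]; simp; omega
          rw [h4, List.append_assoc]
          have h5 : Dec ((l1 ++ [v]).eraseIdx (i + 1) ++ [u]) := by
            rw [← h4]; exact Dec.eraseIdx hdec _
          simp only [List.singleton_append]
          rw [stepF_decinc (by intro h6; rw [h6] at hlen'; simp at hlen'; omega) h5 huw, hlen']
          congr 2
          omega
        · have h4 : (l1 ++ [v, u]).eraseIdx (i + 1) = l1 ++ [v] := by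
            have h5 : i + 1 = (l1 ++ [v]).length := by simp; omega
            rw [show l1 ++ [v, u] = (l1 ++ [v]) ++ [u] by simp, h5,
              List.eraseIdx_append_of_length_le le_rfl]
            simp
          rw [h4, List.append_assoc]
          exact hex
      · have h3 : l1 ++ [v, u] ++ [w] = (l1 ++ [v]) ++ [u, w] := by simp
        have h4 : i = (l1 ++ [v]).length := by simp; omega
        rw [h3, h4, mrg_last, max_eq_right huw.le]
        simpa using hex
      · have h4 : i = (l1 ++ [v, u]).length := by simp; omega
        rw [h4, mrg_dropLast, h1']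
    · have hd : Dec (l1 ++ [v, u] ++ [w]) := by
        have : Dec ((l1 ++ [v]) ++ [u, w]) := dec_snoc.2 ⟨by simpa using hdec, huw⟩
        simpa using this
      have hdl : (l1 ++ [v, u] ++ [w]).length = k + 1 := by simp; omega
      have htail : Dec (l1 ++ [v, u] ++ [w]).tail := List.Pairwise.sublist (List.tail_sublist _) hd
      rw [stepF_dec' htail (by simp), stepF_dec' hdec (by simp)] at h
      intro i hi
      have hDT := P.DT _ hd hdl (by rw [List.dropLast_concat, h])
      rcases lt_or_eq_of_le hi with hi' | hi'
      · rw [mrg_dec i _ hd (by omega), stepF_dec' (Dec.eraseIdx hd _) (by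
          rw [List.length_eraseIdx_of_lt (by omega)]; omega), stepF_dec' hdec (by simp), ← h]
        exact hDT (i + 1) (by omega)
      · have h4 : i = (l1 ++ [v, u]).length := by simp; omega
        rw [h4, mrg_dropLast]
  -- the initial part is not monotone: impossible
  exfalso
  rw [stepF_turn hinc hdec] at h
  rcases hno with ⟨x, y, z, r, rfl, hxy, hyz⟩ | ⟨x, y, z, r, rfl, hxy, hyz⟩
  · have h1 : ¬ Inc (y :: z :: r) := fun h2 => hinc (inc_cons_cons.2 ⟨hxy, h2⟩)
    have h2 : ¬ Dec (y :: z :: r) := not_dec_of_lt hyz
    have hg' : Good (y :: z :: r) := Good.of_append (r := [w]) (by simpa using Good.tail hg)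
    have h3 := tsign_append (y :: z :: r) [w] hg' h1 h2
    simp only [List.cons_append, List.tail_cons] at h h3
    rw [stepF_turn, h3, tsign, if_neg (by omega), if_neg (by omega)] at h
    · cases hh : tsign (y :: z :: r) <;> simp [hh] at h
    · intro h4
      exact h1 (List.Pairwise.sublist
        (show List.Sublist (y :: z :: r) (y :: z :: (r ++ [w])) by simp) h4)
    · intro h4
      exact h2 (List.Pairwise.sublist
        (show List.Sublist (y :: z :: r) (y :: z :: (r ++ [w])) by simp) h4)
  · have h1 : ¬ Dec (y :: z :: r) := fun h2 => hdec (dec_cons_cons.2 ⟨hxy, h2⟩)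
    have h2 : ¬ Inc (y :: z :: r) := not_inc_of_lt hyz
    have hg' : Good (y :: z :: r) := Good.of_append (r := [w]) (by simpa using Good.tail hg)
    have h3 := tsign_append (y :: z :: r) [w] hg' h2 h1
    simp only [List.cons_append, List.tail_cons] at h h3
    rw [stepF_turn, h3, tsign, if_neg (by omega), if_neg (by omega)] at h
    · cases hh : tsign (y :: z :: r) <;> simp [hh] at h
    · intro h4
      exact h2 (List.Pairwise.sublist
        (show List.Sublist (y :: z :: r) (y :: z :: (r ++ [w])) by simp) h4)
    · intro h4
      exact h1 (List.Pairwise.sublist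
        (show List.Sublist (y :: z :: r) (y :: z :: (r ++ [w])) by simp) h4)

/-- **Transitivity** of the colouring one level up. -/
theorem stepF_trans (hk : 3 ≤ k) (P : IDProps k I D) (d : List ℕ)
    (hg : Good d) (hlen : d.length = k + 1) (h : stepF I D d.tail = stepF I D d.dropLast) :
    ∀ i ≤ k, stepF I D (mrg i d) = stepF I D d.tail := by
  match d, hg, hlen, h with
  | [], _, hlen, _ => simp at hlen
  | [x], _, hlen, _ => simp at hlen; omega
  | [x, y], _, hlen, _ => simp at hlen; omega
  | [x, y, z], _, hlen, _ => simp at hlen; omega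
  | x :: y :: z :: w :: r, hg, hlen, h =>
    have hxy : x ≠ y := hg.ne
    have hyz : y ≠ z := hg.tail.ne
    have hzw : z ≠ w := hg.tail.tail.ne
    have key : ∀ d' : List ℕ, d' = x :: y :: z :: w :: r →
        ((∃ x y z r, d'.dropLast = x :: y :: z :: r ∧ x < y ∧ y < z) ∨
          (∃ x y z r, d'.dropLast = x :: y :: z :: r ∧ y < x ∧ z < y)) →
        ∀ i ≤ k, stepF I D (mrg i (x :: y :: z :: w :: r)) =
          stepF I D (x :: y :: z :: w :: r).tail := by
      intro d' hd' hno
      obtain ⟨l, u, hlu⟩ : ∃ l u, x :: y :: z :: w :: r = l ++ [u] := by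
        rcases List.eq_nil_or_concat (x :: y :: z :: w :: r) with h1 | ⟨l0, u, h1⟩
        · simp at h1
        · exact ⟨l0, u, by rw [h1]; simp⟩
      rw [hd', hlu, List.dropLast_concat] at hno
      rw [hlu] at hg hlen h ⊢
      rw [List.dropLast_concat] at h
      rw [h]
      exact stepF_trans_aux hk P l u hg (by simpa using hlen) hno h
    rcases lt_or_gt_of_ne hxy with hxy | hxy
    · rcases lt_or_gt_of_ne hyz with hyz | hyz
      · refine key _ rfl (Or.inl ⟨x, y, z, (w :: r).dropLast, ?_, hxy, hyz⟩)
        simp [List.dropLast]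
      · -- a local maximum at place two
        have h1 : stepF I D (x :: y :: z :: w :: r).dropLast = true := by
          have : (x :: y :: z :: w :: r).dropLast = x :: y :: z :: (w :: r).dropLast := by
            simp [List.dropLast]
          rw [this]
          exact stepF_max hxy hyz
        rw [h1] at h
        simp only [List.tail_cons] at h ⊢
        have hwz : w < z := by
          rcases lt_or_gt_of_ne hzw with h2 | h2
          · rw [stepF_min hyz h2] at h
            exact absurd h (by simp)
          · exact h2
        intro i _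
        match i with
        | 0 => simp only [mrg, max_eq_right hxy.le]
        | 1 =>
          simp only [mrg, max_eq_left hyz.le]
          rw [h]
          exact stepF_max hxy (hwz.trans hyz)
        | 2 =>
          simp only [mrg, max_eq_left hwz.le]
          rw [h]
          exact stepF_max hxy hyz
        | i + 3 =>
          simp only [mrg]
          rw [h]
          exact stepF_max hxy hyz
    · rcases lt_or_gt_of_ne hyz with hyz | hyz
      · -- a local minimum at place two
        have h1 : stepF I D (x :: y :: z :: w :: r).dropLast = false := by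
          have : (x :: y :: z :: w :: r).dropLast = x :: y :: z :: (w :: r).dropLast := by
            simp [List.dropLast]
          rw [this]
          exact stepF_min hxy hyz
        rw [h1] at h
        simp only [List.tail_cons] at h ⊢
        have hxz : x ≠ z := hg.2.1 hxy hyz
        have hex : stepF I D (x :: z :: w :: r) = false := by
          rcases lt_or_gt_of_ne hzw with h2 | h2
          · rcases lt_or_gt_of_ne hxz with h3 | h3
            · by_cases hinc : Inc (z :: w :: r)
              · have h4 : Inc (y :: z :: w :: r) := inc_cons_cons.2 ⟨hyz, hinc⟩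
                have h5 : Inc (x :: z :: w :: r) := inc_cons_cons.2 ⟨h3, hinc⟩
                rw [stepF_inc h4] at h
                rw [stepF_inc h5]
                exact P.IM x y (z :: w :: r) (inc_cons_cons.2 ⟨hxy, h5⟩)
                  (by simp at hlen ⊢; omega) h
              · rw [stepF_turn (fun h6 => hinc (inc_cons_cons.1 h6).2) (not_dec_of_lt hyz)] at h
                rw [stepF_turn (fun h6 => hinc (inc_cons_cons.1 h6).2) (not_dec_of_lt h3), ← h]
                exact tsign_congr x y z (w :: r) (by omega) (by omega)
            · exact stepF_min h3 h2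
          · rw [stepF_max hyz h2] at h
            exact absurd h (by simp)
        intro i _
        match i with
        | 0 =>
          simp only [mrg, max_eq_left hxy.le]
          rw [h, hex]
        | 1 =>
          simp only [mrg, max_eq_right hyz.le]
          rw [h, hex]
        | 2 =>
          simp only [mrg]
          rw [h]
          exact stepF_min hxy (lt_max_of_lt_left hyz)
        | i + 3 =>
          simp only [mrg]
          rw [h]
          exact stepF_min hxy hyz
      · refine key _ rfl (Or.inr ⟨x, y, z, (w :: r).dropLast, ?_, hxy, hyz⟩)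
        simp [List.dropLast]

/-- The first monotonicity property of the colouring one level up. -/
theorem stepF_M (hk : 3 ≤ k) (P : IDProps k I D) (d : List ℕ)
    (hg : Good d) (hlen : d.length = k + 1) (h : stepF I D (mrg 0 d) = true) :
    stepF I D d.tail = true := by
  match d, hg, hlen, h with
  | [], _, hlen, _ => simp at hlen
  | [x], _, hlen, _ => simp at hlen; omega
  | [x, y], _, hlen, _ => simp at hlen; omega
  | [x, y, z], _, hlen, _ => simp at hlen; omega
  | x :: y :: z :: w :: r, hg, hlen, h =>
    have hxy : x ≠ y := hg.ne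
    have hyz : y ≠ z := hg.tail.ne
    have hzw : z ≠ w := hg.tail.tail.ne
    have hlr : (z :: w :: r).length = k - 1 := by simp at hlen ⊢; omega
    simp only [mrg, List.tail_cons] at h ⊢
    rcases lt_or_gt_of_ne hxy with hxy | hxy
    · rwa [max_eq_right hxy.le] at h
    rw [max_eq_left hxy.le] at h
    rcases lt_or_gt_of_ne hyz with hyz | hyz
    · have hxz : x ≠ z := hg.2.1 hxy hyz
      rcases lt_or_gt_of_ne hxz with h3 | h3
      · by_cases hinc : Inc (z :: w :: r)
        · have h4 : Inc (y :: z :: w :: r) := inc_cons_cons.2 ⟨hyz, hinc⟩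
          have h5 : Inc (x :: z :: w :: r) := inc_cons_cons.2 ⟨h3, hinc⟩
          rw [stepF_inc h5] at h
          rw [stepF_inc h4]
          by_contra h6
          have h7 := P.IM x y (z :: w :: r) (inc_cons_cons.2 ⟨hxy, h5⟩) hlr
            (by simpa using h6)
          rw [h7] at h
          exact absurd h (by simp)
        · rw [stepF_turn (fun h6 => hinc (inc_cons_cons.1 h6).2) (not_dec_of_lt h3)] at h
          rw [stepF_turn (fun h6 => hinc (inc_cons_cons.1 h6).2) (not_dec_of_lt hyz), ← h]
          exact tsign_congr y x z (w :: r) (by omega) (by omega)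
      · rcases lt_or_gt_of_ne hzw with h2 | h2
        · rw [stepF_min h3 h2] at h
          exact absurd h (by simp)
        · exact stepF_max hyz h2
    · have h3 : z < x := hyz.trans hxy
      by_cases hdec : Dec (z :: w :: r)
      · have h4 : Dec (y :: z :: w :: r) := dec_cons_cons.2 ⟨hyz, hdec⟩
        have h5 : Dec (x :: z :: w :: r) := dec_cons_cons.2 ⟨h3, hdec⟩
        rw [stepF_dec h5] at h
        rw [stepF_dec h4]
        exact P.DN x y (z :: w :: r) (dec_cons_cons.2 ⟨hxy, h4⟩) hlr h
      · rw [stepF_turn (not_inc_of_lt h3) (fun h6 => hdec (dec_cons_cons.1 h6).2)] at h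
        rw [stepF_turn (not_inc_of_lt hyz) (fun h6 => hdec (dec_cons_cons.1 h6).2), ← h]
        exact tsign_congr y x z (w :: r) (by omega) (by omega)

/-- The second monotonicity property of the colouring one level up. -/
theorem stepF_N (hk : 3 ≤ k) (P : IDProps k I D) (l : List ℕ) (v w : ℕ)
    (hg : Good (l ++ [v, w])) (hlen : l.length = k - 1)
    (h : stepF I D (l ++ [max v w]) = decide ((k + 1) % 2 = 0)) :
    stepF I D (l ++ [v]) = decide ((k + 1) % 2 = 0) := by
  obtain ⟨l0, u, rfl⟩ : ∃ l0 u, l = l0 ++ [u] := by
    rcases List.eq_nil_or_concat l with rfl | ⟨l0, u, rfl⟩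
    · simp at hlen; omega
    · exact ⟨l0, u, by simp⟩
  have hl0 : l0.length = k - 2 := by simp at hlen; omega
  have hl0ne : l0 ≠ [] := by intro h5; rw [h5] at hl0; simp at hl0; omega
  have hgr : Good [u, v, w] := by
    rw [List.append_assoc] at hg
    exact Good.append_right hg
  have huv : u ≠ v := hgr.ne
  have hvw : v ≠ w := hgr.tail.ne
  rcases lt_or_gt_of_ne hvw with hvw | hvw
  swap
  · rwa [max_eq_left hvw.le] at h
  rw [max_eq_right hvw.le] at h
  have hgl : Good (l0 ++ [u]) := Good.of_append (r := [v, w]) hg
  by_cases hinc : Inc (l0 ++ [u])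
  · rw [List.append_assoc, List.singleton_append] at h ⊢
    rcases lt_or_gt_of_ne huv with huv | huv
    · have h1 : Inc (l0 ++ [u, v]) := inc_snoc.2 ⟨hinc, huv⟩
      have h2 : Inc (l0 ++ [u, w]) := inc_snoc.2 ⟨hinc, huv.trans hvw⟩
      rw [stepF_inc h2] at h
      rw [stepF_inc h1]
      have hpar : decide ((k + 1) % 2 = 0) = decide (k % 2 = 1) := by
        congr 1
        exact propext (by omega)
      rw [hpar] at h ⊢
      have := P.IN (l0 ++ [u]) v w ?_ hlen (by simpa using h)
      · simpa using this
      · rw [inc_snoc]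
        exact ⟨by simpa using h1, hvw⟩
    · rw [stepF_incdec hl0ne hinc huv, hl0]
      congr 1
      exact propext (by omega)
  by_cases hdec : Dec (l0 ++ [u])
  · rw [List.append_assoc, List.singleton_append] at h ⊢
    rcases lt_or_gt_of_ne huv with huv | huv
    · rw [stepF_decinc hl0ne hdec (huv.trans hvw)] at h
      rw [stepF_decinc hl0ne hdec huv, h]
    · have hdv : Dec (l0 ++ [u, v]) := dec_snoc.2 ⟨hdec, huv⟩
      have huw : u ≠ w := hgr.2.1 huv hvw
      rcases lt_or_gt_of_ne huw with huw | huw
      · rw [stepF_decinc hl0ne hdec huw, hl0] at h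
        exfalso
        rw [decide_eq_decide] at h
        omega
      · have hdw : Dec (l0 ++ [u, w]) := dec_snoc.2 ⟨hdec, huw⟩
        rw [stepF_dec' hdw (by simp)] at h
        rw [stepF_dec' hdv (by simp)]
        by_contra h6
        have hpar : ∀ b : Bool, b ≠ decide ((k + 1) % 2 = 0) → b = decide (k % 2 = 0) := by
          intro b hb
          rcases Nat.mod_two_eq_zero_or_one k with h7 | h7
          · have h8 : (k + 1) % 2 = 1 := by omega
            simp [h8, h7] at hb ⊢
            exact hb
          · have h8 : (k + 1) % 2 = 0 := by omega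
            simp [h8, h7] at hb ⊢
            exact hb
        have h7 := hpar _ h6
        have h8 := P.DM (l0 ++ [u]) v w (by
          rw [dec_snoc]
          exact ⟨by simpa using hdw, hvw⟩) hlen (by simpa using h7)
        rw [List.append_assoc, List.singleton_append, h] at h8
        rw [decide_eq_decide] at h8
        omega
  · have h1 : ∀ t, ¬ Inc (l0 ++ [u] ++ [t]) := fun t h2 =>
      hinc (List.Pairwise.sublist (List.sublist_append_left _ _) h2)
    have h2 : ∀ t, ¬ Dec (l0 ++ [u] ++ [t]) := fun t h2 =>
      hdec (List.Pairwise.sublist (List.sublist_append_left _ _) h2)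
    rw [stepF_turn (h1 _) (h2 _), tsign_append _ _ hgl hinc hdec] at h ⊢
    exact h

end

end Pool.Agent.H22.TR
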