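import Pool.Agent.H22.TR.Ram

/-!
MP_ea5a80_co, Q2: the Ramsey numbers of monotone paths for transitive colourings of complete
`k`-uniform hypergraphs are towers of height `k - 1`, for all `k ≥ 4` and all `q ≥ 2`.
-/

set_option autoImplicit false

namespace Pool.Agent.H22.TR.Towers

open Pool.Agent.H22.TR

/-- The set `{x j, x (j+1), ..., x (j+k-1)}` of `k` consecutive vertices of the sequence `x`. -/
def window (k : ℕ) (x : ℕ → ℕ) (j : ℕ) : Finset ℕ :=
  (Finset.range k).image (fun t => x (j + t))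

/-- `c` colours the edges of the complete `k`-uniform hypergraph on the ordered vertex set
`{0, ..., N-1}` (only the values of `c` on `k`-element subsets of `{0, ..., N-1}` matter).
`HasMonoPath k q n N c`: there are vertices `x 0 < x 1 < ... < x (n+k-2)` such that the `n` edges
`{x j, ..., x (j+k-1)}`, `j < n`, all have the same colour, that is, there is a monochromatic
monotone path of length `n`. -/
def HasMonoPath (k q n N : ℕ) (c : Finset ℕ → Fin q) : Prop :=
  ∃ x : ℕ → ℕ, StrictMonoOn x (Set.Iio (n + k - 1)) ∧ (∀ a, a < n + k - 1 → x a < N) ∧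
    ∃ i : Fin q, ∀ j, j < n → c (window k x j) = i

/-- The colouring `c` of the `k`-subsets of `{0, ..., N-1}` is transitive: whenever
`x 0 < ... < x k` and the edges `{x 0, ..., x (k-1)}` and `{x 1, ..., x k}` both have colour `i`,
every `k`-subset of `{x 0, ..., x k}` has colour `i`. -/
def IsTransitive (k q N : ℕ) (c : Finset ℕ → Fin q) : Prop :=
  ∀ x : ℕ → ℕ, StrictMonoOn x (Set.Iio (k + 1)) → (∀ a, a < k + 1 → x a < N) →
    ∀ i : Fin q, c (window k x 0) = i → c (window k x 1) = i →
      ∀ e ⊆ window (k + 1) x 0, e.card = k → c e = i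

/-- `N'_k(q, n)`: the least `N` such that every transitive colouring of the `k`-subsets of
`{0, ..., N-1}` with `q` colours contains a monochromatic monotone path of length `n`. -/
noncomputable def ramseyN' (k q n : ℕ) : ℕ :=
  sInf {N : ℕ | ∀ c : Finset ℕ → Fin q, IsTransitive k q N c → HasMonoPath k q n N c}

/-- Towers: `tower 1 x = x` and `tower (i + 1) x = 2 ^ tower i x` for `i ≥ 1`. -/
noncomputable def tower : ℕ → ℝ → ℝ
  | 0, x => x
  | 1, x => x
  | i + 2, x => (2 : ℝ) ^ tower (i + 1) x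

theorem tower_mono (i : ℕ) {x y : ℝ} (h : x ≤ y) : tower i x ≤ tower i y := by
  induction i with
  | zero => exact h
  | succ i ih =>
    match i, ih with
    | 0, _ => exact h
    | i + 1, ih =>
      unfold tower
      exact Real.rpow_le_rpow_of_exponent_le (by norm_num) ih

theorem tower_nat (i m : ℕ) : tower (i + 1) (m : ℝ) = (tw i m : ℝ) := by
  induction i with
  | zero => rfl
  | succ i ih =>
    unfold tower tw
    rw [ih]
    push_cast
    exact Real.rpow_natCast 2 _

theorem window_eq (k : ℕ) (x : ℕ → ℕ) (j : ℕ) : window k x j = (W k x j).toFinset := by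
  ext a
  simp [window, W]

theorem inc_W_of (k : ℕ) (x : ℕ → ℕ) (j n : ℕ) (hx : StrictMonoOn x (Set.Iio n))
    (hn : j + k ≤ n) : Inc (W k x j) :=
  inc_W fun i hi => hx (show j + i < n by omega) (show j + i + 1 < n by omega) (by omega)

theorem sort_toFinset_inc {l : List ℕ} (h : Inc l) : l.toFinset.sort = l := by
  exact (List.toFinset_sort (r := fun a b => a ≤ b)
    (List.Pairwise.imp (fun h => ne_of_lt h) h)).2 (List.Pairwise.imp (fun h => le_of_lt h) h)

/-- The colouring of finite sets that belongs to a colouring of lists. -/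
noncomputable def toCol {q : ℕ} (hq : 2 ≤ q) (χ : List ℕ → Bool) (e : Finset ℕ) : Fin q :=
  if χ e.sort then ⟨0, by omega⟩ else ⟨1, by omega⟩

theorem toCol_eq {q : ℕ} (hq : 2 ≤ q) (χ : List ℕ → Bool) {e e' : Finset ℕ} :
    toCol hq χ e = toCol hq χ e' ↔ χ e.sort = χ e'.sort := by
  unfold toCol
  cases χ e.sort <;> cases χ e'.sort <;> simp

theorem W_tail (k : ℕ) (x : ℕ → ℕ) (j : ℕ) : (W (k + 1) x j).tail = W k x (j + 1) := by
  rw [W_succ]
  rfl

theorem W_dropLast (k : ℕ) (x : ℕ → ℕ) (j : ℕ) : (W (k + 1) x j).dropLast = W k x j := by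
  unfold W
  rw [List.range_succ, List.map_append, List.map_singleton, List.dropLast_concat]

theorem isTransitive_toCol {k q : ℕ} (hq : 2 ≤ q) {χ : List ℕ → Bool} (h : Tri k χ) (N : ℕ) :
    IsTransitive k q N (toCol hq χ) := by
  intro x hx _ i h0 h1 e he hcard
  have hinc : Inc (W (k + 1) x 0) := inc_W_of (k + 1) x 0 (k + 1) hx (by omega)
  have hinc0 : Inc (W k x 0) := inc_W_of k x 0 (k + 1) hx (by omega)
  have hinc1 : Inc (W k x 1) := inc_W_of k x 1 (k + 1) hx (by omega)
  have h01 : χ (W k x 1) = χ (W k x 0) := by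
    have := (toCol_eq hq χ).1 (h1.trans h0.symm)
    rwa [window_eq, window_eq, sort_toFinset_inc hinc0, sort_toFinset_inc hinc1] at this
  rw [← h1, toCol_eq, window_eq, sort_toFinset_inc hinc1, ← W_tail]
  have hT := h.T (W (k + 1) x 0) hinc (W_length _ _ _) (by rw [W_tail, W_dropLast]; exact h01)
  -- the set `e` misses exactly one vertex
  rw [window_eq] at he
  have hcard' : (W (k + 1) x 0).toFinset.card = k + 1 := by
    rw [List.toFinset_card_of_nodup (List.Pairwise.imp (fun h => ne_of_lt h) hinc), W_length]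
  obtain ⟨a, ha⟩ : ((W (k + 1) x 0).toFinset \ e).Nonempty := by
    rw [← Finset.card_pos, Finset.card_sdiff_of_subset he]
    omega
  rw [Finset.mem_sdiff] at ha
  have hee : e = (W (k + 1) x 0).toFinset.erase a := by
    apply Finset.eq_of_subset_of_card_le
    · intro b hb
      exact Finset.mem_erase.2 ⟨fun hba => ha.2 (hba ▸ hb), he hb⟩
    · rw [Finset.card_erase_of_mem ha.1, hcard']
      omega
  obtain ⟨t, ht, hta⟩ := List.getElem_of_mem (List.mem_toFinset.1 ha.1)
  have hnd : (W (k + 1) x 0).Nodup := List.Pairwise.imp (fun h => ne_of_lt h) hinc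
  have her : e = ((W (k + 1) x 0).eraseIdx t).toFinset := by
    rw [hee, ← List.Nodup.erase_getElem hnd t ht, hta]
    ext b
    rw [Finset.mem_erase, List.mem_toFinset, List.mem_toFinset, List.Nodup.mem_erase_iff hnd]
  rw [her, sort_toFinset_inc (Inc.eraseIdx hinc t)]
  exact hT t (by rw [W_length] at ht; omega)

theorem no_path {k q n N : ℕ} (hq : 2 ≤ q) {χ : List ℕ → Bool} (hn : 1 ≤ n)
    (h : PathFree k χ N n) : ¬ HasMonoPath k q n N (toCol hq χ) := by
  rintro ⟨x, hx, hN, i, hi⟩
  refine h x (fun a ha => hx (show a < n + k - 1 by omega) (show a + 1 < n + k - 1 by omega)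
    (by omega)) hN (χ (W k x 0)) fun j hj => ?_
  have h1 := (toCol_eq hq χ).1 ((hi j hj).trans (hi 0 (by omega)).symm)
  rwa [window_eq, window_eq, sort_toFinset_inc (inc_W_of k x j (n + k - 1) hx (by omega)),
    sort_toFinset_inc (inc_W_of k x 0 (n + k - 1) hx (by omega))] at h1

/-- The Ramsey numbers are finite. -/
theorem nonempty (k q n : ℕ) (hk : 1 ≤ k) (hn : 1 ≤ n) :
    {N : ℕ | ∀ c : Finset ℕ → Fin q, IsTransitive k q N c → HasMonoPath k q n N c}.Nonempty := by
  obtain ⟨N, hN⟩ := exists_mono k n hk hn (Fin q)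
  refine ⟨N, fun c _ => ?_⟩
  obtain ⟨L, hL, hlen, hlt, i, hi⟩ := hN (fun l => c l.toFinset)
  refine ⟨fun a => L.getD a 0, ?_, ?_, i, ?_⟩
  · intro a ha b hb hab
    have ha' : a < L.length := by rw [hlen]; exact ha
    have hb' : b < L.length := by rw [hlen]; exact hb
    simp only [List.getD_eq_getElem?_getD, List.getElem?_eq_getElem ha',
      List.getElem?_eq_getElem hb', Option.getD_some]
    exact List.pairwise_iff_getElem.1 hL a b ha' hb' hab
  · intro a ha
    have ha' : a < L.length := by rw [hlen]; exact ha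
    simp only [List.getD_eq_getElem?_getD, List.getElem?_eq_getElem ha', Option.getD_some]
    exact hlt _ (List.getElem_mem ha')
  · intro j hj
    rw [← hi j hj]
    congr 1
    rw [window_eq]
    congr 1
    apply List.ext_getElem
    · simp [W]
      omega
    · intro t h1 h2
      rw [W_length] at h1
      have h3 : j + t < L.length := by omega
      simp [W, List.getElem?_eq_getElem h3]

/-- **The Ramsey numbers of monotone paths under transitive colourings are towers of height
`k - 1`.** For all `k ≥ 3` and `q ≥ 2` and every real `c < 1 / 2 ^ (k - 3)`,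
`N'_k(q, n) ≥ t_{k-1}(c n)` for all large `n`. -/
theorem result (k q : ℕ) (hk : 3 ≤ k) (hq : 2 ≤ q) (c : ℝ) (hc : c < 1 / 2 ^ (k - 3)) :
    ∀ᶠ n : ℕ in Filter.atTop, tower (k - 1) (c * n) ≤ (ramseyN' k q n : ℝ) := by
  obtain ⟨j, rfl⟩ : ∃ j, k = j + 3 := ⟨k - 3, by omega⟩
  obtain ⟨C, hC⟩ := pathFree_col j
  simp only [Nat.add_sub_cancel] at hc
  -- the bound for one value of `m`
  have key : ∀ m n : ℕ, 1 ≤ m → 2 ^ j * m + C ≤ n →
      tower (j + 3 - 1) (m : ℝ) ≤ (ramseyN' (j + 3) q n : ℝ) := by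
    intro m n hm hmn
    have hn : 1 ≤ n := by
      have : 1 ≤ 2 ^ j * m := Nat.one_le_iff_ne_zero.2 (by positivity)
      omega
    rw [show j + 3 - 1 = (j + 1) + 1 by omega, tower_nat]
    have hmem := Nat.sInf_mem (nonempty (j + 3) q n (by omega) hn)
    by_contra hlt
    rw [not_le, Nat.cast_lt] at hlt
    have h1 := hmem (toCol hq (col j)) (isTransitive_toCol hq (tri_col j) _)
    exact no_path hq hn ((((hC m hm).mono hmn)).mono_left hlt.le) h1
  have hpow : (0 : ℝ) < 2 ^ j := by positivity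
  -- `c n ≤ m` for `m = ⌊(n - C) / 2 ^ j⌋`
  have hlim : Filter.Tendsto (fun n : ℕ => (1 / 2 ^ j - c) * (n : ℝ)) Filter.atTop
      Filter.atTop :=
    Filter.Tendsto.const_mul_atTop (by linarith) tendsto_natCast_atTop_atTop
  filter_upwards [hlim.eventually_ge_atTop ((C : ℝ) / 2 ^ j + 1),
    Filter.eventually_ge_atTop (C + 2 ^ j)] with n hn1 hn2
  set m := (n - C) / 2 ^ j with hm
  have hm1 : 1 ≤ m := by
    rw [hm, Nat.one_le_div_iff (by positivity)]
    omega
  have hm2 : 2 ^ j * m + C ≤ n := by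
    have h0 : 2 ^ j * m ≤ n - C := Nat.mul_div_le (n - C) (2 ^ j)
    have h1 : C ≤ n := le_trans (Nat.le_add_right _ _) hn2
    calc 2 ^ j * m + C ≤ (n - C) + C := Nat.add_le_add_right h0 C
      _ = n := Nat.sub_add_cancel h1
  refine le_trans (tower_mono _ ?_) (key m n hm1 hm2)
  have h3 : n - C < 2 ^ j * (m + 1) := by
    have := Nat.lt_mul_div_succ (n - C) (show 0 < 2 ^ j by positivity)
    simpa [hm] using this
  have h4 : (n : ℝ) - C < 2 ^ j * (m + 1) := by
    have h5 : ((n - C : ℕ) : ℝ) = (n : ℝ) - C := by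
      rw [Nat.cast_sub (by omega)]
    rw [← h5]
    exact_mod_cast h3
  have h6 : ((n : ℝ) - C) / 2 ^ j < m + 1 := by
    rw [div_lt_iff₀ hpow]
    linarith
  have h7 : ((n : ℝ) - C) / 2 ^ j = 1 / 2 ^ j * n - C / 2 ^ j := by ring
  linarith

end Pool.Agent.H22.TR.Towers
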